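import Pool.Agent.T6.H63.WL.Defs

set_option autoImplicit false

open Finset Pool.Agent.Y117.SG Pool.Agent.T6.H63.WK

namespace Pool.Agent.T6.H63.WL

/-- MODULE CR (helper92) -/
theorem cr (hM : StmMain) : StmCr := by
  intro δ hδ
  obtain ⟨N, hN⟩ := exists_nat_ge (4 / δ)
  have hNpos : (0 : ℝ) < N := lt_of_lt_of_le (by positivity) hN
  have hN1 : 1 ≤ N := by exact_mod_cast hNpos
  have hNne : N ≠ 0 := by omega
  have hNinv : (N : ℝ)⁻¹ ≤ δ / 4 := by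
    rw [inv_le_comm₀ hNpos (by positivity), inv_div]
    exact hN
  have hNinv1 : (N : ℝ)⁻¹ ≤ 1 := inv_le_one_of_one_le₀ (by exact_mod_cast hN1)
  obtain ⟨h, hh⟩ : ∃ h : ℕ, h = N + 1 := ⟨_, rfl⟩
  have hev : ∀ᶠ x : ℝ in Filter.atTop, (15 : ℝ) ^ (h + 3) ≤ x ^ (3 * δ / 4) :=
    (tendsto_rpow_atTop (by positivity)).eventually_ge_atTop _
  obtain ⟨X, hX⟩ := Filter.eventually_atTop.1 hev
  obtain ⟨K, hK⟩ := exists_nat_ge X
  refine ⟨max K (h ^ N + h + 2), ?_⟩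
  intro k hk n hn
  have hkK : K ≤ k := le_trans (le_max_left _ _) hk
  have hk2 : h ^ N + h + 2 ≤ k := le_trans (le_max_right _ _) hk
  have hhk : h ≤ k := by omega
  have hk2' : 2 ≤ k := by omega
  have hkR1 : (1 : ℝ) ≤ k := by exact_mod_cast (by omega : 1 ≤ k)
  have hk0 : (0 : ℝ) < k := by linarith
  have h2kn : 2 * k ≤ n := by nlinarith
  have hkn : k ≤ n := by omega
  have hn0 : (0 : ℝ) < n := by exact_mod_cast (by omega : 0 < n)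
  have hpow : (15 : ℝ) ^ (h + 3) ≤ (k : ℝ) ^ (3 * δ / 4) := by
    apply hX
    exact hK.trans (by exact_mod_cast hkK)
  obtain ⟨t, ht⟩ : ∃ t : ℕ, t = ⌈(k : ℝ) ^ ((N : ℝ)⁻¹)⌉₊ := ⟨_, rfl⟩
  have hr0 : (0 : ℝ) ≤ (k : ℝ) ^ ((N : ℝ)⁻¹) := by positivity
  have hr1 : (1 : ℝ) ≤ (k : ℝ) ^ ((N : ℝ)⁻¹) := Real.one_le_rpow hkR1 (by positivity)
  have ht1 : (k : ℝ) ^ ((N : ℝ)⁻¹) ≤ t := by rw [ht]; exact Nat.le_ceil _
  have ht2 : (t : ℝ) < (k : ℝ) ^ ((N : ℝ)⁻¹) + 1 := by rw [ht]; exact Nat.ceil_lt_add_one hr0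
  have hktN : k ≤ t ^ (h - 1) := by
    have e1 : h - 1 = N := by omega
    rw [e1]
    have e2 : (k : ℝ) ≤ (t : ℝ) ^ N := by
      calc (k : ℝ) = ((k : ℝ) ^ ((N : ℝ)⁻¹)) ^ N := (Real.rpow_inv_natCast_pow hk0.le hNne).symm
        _ ≤ (t : ℝ) ^ N := pow_le_pow_left₀ hr0 ht1 N
    exact_mod_cast e2
  have hht : h ≤ t := by
    have e1 : (h : ℝ) ≤ (k : ℝ) ^ ((N : ℝ)⁻¹) := by
      calc (h : ℝ) = ((h : ℝ) ^ N) ^ ((N : ℝ)⁻¹) := (Real.pow_rpow_inv_natCast (by positivity) hNne).symm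
        _ ≤ (k : ℝ) ^ ((N : ℝ)⁻¹) := by
            apply Real.rpow_le_rpow (by positivity) _ (by positivity)
            have : h ^ N ≤ k := by omega
            exact_mod_cast this
    exact_mod_cast e1.trans ht1
  have htk : t ≤ k := by
    rw [ht]
    apply Nat.ceil_le.2
    calc (k : ℝ) ^ ((N : ℝ)⁻¹) ≤ (k : ℝ) ^ (1 : ℝ) := Real.rpow_le_rpow_of_exponent_le hkR1 hNinv1
      _ = k := Real.rpow_one _
  have htkn : t * k ≤ n := by
    calc t * k ≤ k * k := Nat.mul_le_mul_right k htk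
      _ = k ^ 2 := by ring
      _ ≤ n := hn
  have hrδ : (k : ℝ) ^ ((N : ℝ)⁻¹) ≤ (k : ℝ) ^ (δ / 4) := Real.rpow_le_rpow_of_exponent_le hkR1 hNinv
  have hC0 : (0 : ℝ) < (n.choose k : ℝ) := by exact_mod_cast Nat.choose_pos hkn
  have hCn : (n : ℝ) ≤ (n.choose k : ℝ) := by
    have h0 : ∀ j : ℕ, 1 ≤ j → j ≤ k → n.choose 1 ≤ n.choose j := by
      intro j hj
      induction j, hj using Nat.le_induction with
      | base => intro _; exact le_rfl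
      | succ j hj ih =>
        intro hjk
        exact (ih (by omega)).trans (Nat.choose_le_succ_of_lt_half_left (by omega))
    have h1 : n.choose 1 ≤ n.choose k := h0 k (by omega) le_rfl
    rw [Nat.choose_one_right] at h1
    exact_mod_cast h1
  obtain ⟨A, hA⟩ : ∃ A : ℝ, A = (15 : ℝ) ^ (h + 2) * t * k := ⟨_, rfl⟩
  have htR1 : (1 : ℝ) ≤ t := hr1.trans ht1
  have hA0 : 0 < A := by rw [hA]; positivity
  obtain ⟨q, hq⟩ : ∃ q : ℕ, q = ⌈A * (n.choose k : ℝ) / n⌉₊ := ⟨_, rfl⟩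
  have hq1 : A * (n.choose k : ℝ) / n ≤ q := by rw [hq]; exact Nat.le_ceil _
  have hqpos : 1 ≤ q := by
    have : (0 : ℝ) < q := lt_of_lt_of_le (by positivity) hq1
    exact_mod_cast this
  have hmem : q ∈ {q : ℕ | 1 ≤ q ∧ ¬ Forces (offerWC q) (fun Y => ¬ Sat Y) (board n k) ∅} := by
    refine ⟨hqpos, hM n k h t q (by omega) hht hhk hktN htkn ?_⟩
    rw [div_le_iff₀ hn0] at hq1
    rw [← hA]
    nlinarith
  have hb1 : bWC n k ≤ q := Nat.sInf_le hmem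
  have hb2 : 1 ≤ bWC n k := (Nat.sInf_mem ⟨q, hmem⟩).1
  have hb0 : (0 : ℝ) < (bWC n k : ℝ) := by exact_mod_cast hb2
  have hb : (bWC n k : ℝ) ≤ (A + 1) * (n.choose k : ℝ) / n := by
    have h1 : (q : ℝ) < A * (n.choose k : ℝ) / n + 1 := by
      rw [hq]; exact Nat.ceil_lt_add_one (by positivity)
    have h2 : (1 : ℝ) ≤ (n.choose k : ℝ) / n := by
      rw [le_div_iff₀ hn0]
      linarith
    have h3 : (bWC n k : ℝ) ≤ q := by exact_mod_cast hb1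
    have h4 : (A + 1) * (n.choose k : ℝ) / n = A * (n.choose k : ℝ) / n + (n.choose k : ℝ) / n := by ring
    linarith
  have hl : 0 < Real.log 2 := Real.log_pos (by norm_num)
  have hl1 : Real.log 2 ≤ 1 := by
    have := Real.log_two_lt_d9
    linarith
  have hAk : A + 1 ≤ (k : ℝ) ^ (1 + δ) := by
    have e0 : (t : ℝ) ≤ 2 * (k : ℝ) ^ (δ / 4) := by linarith
    have e1 : (1 : ℝ) ≤ (k : ℝ) ^ (δ / 4) := Real.one_le_rpow hkR1 (by positivity)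
    have e2 : (k : ℝ) ^ (1 + δ) = (k : ℝ) ^ (3 * δ / 4) * ((k : ℝ) ^ (δ / 4) * k) := by
      have e3 : (k : ℝ) ^ (δ / 4) * k = (k : ℝ) ^ (δ / 4 + 1) := by
        rw [Real.rpow_add hk0, Real.rpow_one]
      rw [e3, ← Real.rpow_add hk0]
      congr 1
      ring
    have e4 : (1 : ℝ) ≤ (k : ℝ) ^ (δ / 4) * k := by nlinarith
    have e5 : A ≤ (15 : ℝ) ^ (h + 2) * (2 * ((k : ℝ) ^ (δ / 4) * k)) := by
      rw [hA]
      have : (t : ℝ) * k ≤ 2 * ((k : ℝ) ^ (δ / 4) * k) := by nlinarith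
      calc (15 : ℝ) ^ (h + 2) * t * k = (15 : ℝ) ^ (h + 2) * (t * k) := by ring
        _ ≤ _ := mul_le_mul_of_nonneg_left this (by positivity)
    have e6 : (1 : ℝ) ≤ (15 : ℝ) ^ (h + 2) := one_le_pow₀ (by norm_num)
    rw [e2]
    calc A + 1 ≤ (15 : ℝ) ^ (h + 2) * (2 * ((k : ℝ) ^ (δ / 4) * k)) + (15 : ℝ) ^ (h + 2) * ((k : ℝ) ^ (δ / 4) * k) := by
          have : (1 : ℝ) ≤ (15 : ℝ) ^ (h + 2) * ((k : ℝ) ^ (δ / 4) * k) := by nlinarith
          linarith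
      _ = 3 * (15 : ℝ) ^ (h + 2) * ((k : ℝ) ^ (δ / 4) * k) := by ring
      _ ≤ (15 : ℝ) ^ (h + 3) * ((k : ℝ) ^ (δ / 4) * k) := by
          apply mul_le_mul_of_nonneg_right _ (by positivity)
          rw [pow_succ (15 : ℝ) (h + 2)]
          nlinarith
      _ ≤ _ := mul_le_mul_of_nonneg_right hpow (by positivity)
  have h5 : (A + 1)⁻¹ ≤ 1 / (n : ℝ) * (n.choose k : ℝ) * ((bWC n k : ℝ))⁻¹ := by
    rw [le_div_iff₀ hn0] at hb
    rw [one_div_mul_eq_div, ← div_eq_mul_inv, div_div, le_div_iff₀ (by positivity),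
      inv_mul_le_iff₀ (by positivity)]
    linarith
  have h6 : 0 ≤ 1 / (n : ℝ) * (n.choose k : ℝ) * ((bWC n k : ℝ))⁻¹ := by positivity
  calc ((k : ℝ) ^ (1 + δ))⁻¹ ≤ (A + 1)⁻¹ := inv_anti₀ (by positivity) hAk
    _ ≤ 1 / (n : ℝ) * (n.choose k : ℝ) * ((bWC n k : ℝ))⁻¹ := h5
    _ ≤ _ := by
        rw [le_div_iff₀ hl]
        nlinarith

end Pool.Agent.T6.H63.WL
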