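import Pool.Agent.T6.H63.WL.Defs
import Pool.Agent.T6.H63.WK.CNT2

/-!
# Waiter-Client `k`-SAT, project WL: module CT
-/

set_option autoImplicit false

open Finset Pool.Agent.Y117.SG Pool.Agent.T6.H63.WK

namespace Pool.Agent.T6.H63.WL

open Classical in
theorem ct : StmCt := by
  intro n k h hk hh hkn W P hPW hP
  have h1 := CNT.key n k hkn (by omega) W P hPW
  have h2 : famP n k W P = (fam1 n k W).filter fun c => P ⊆ vars c := by
    unfold famP fam1
    rw [filter_filter]
  rw [h2]
  refine h1.trans (le_of_eq ?_)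
  rw [hP, ← mul_assoc]
  have h3 : (2 * ((k : ℝ) / n)) = 2 * k / n := by ring
  rw [h3]

end Pool.Agent.T6.H63.WL
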