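import Pool.Agent.T6.H63.WL.Defs
import Pool.Agent.T6.H63.WK.Hall

set_option autoImplicit false

open Finset Pool.Agent.Y117.SG Pool.Agent.T6.H63.WK

namespace Pool.Agent.T6.H63.WL

lemma ite_le_of_nonneg' {p : Prop} [Decidable p] {a : ℝ} (ha : 0 ≤ a) : (if p then a else 0) ≤ a := by
  split_ifs
  · exact le_rfl
  · exact ha

theorem main_of (hWt : StmWt) (hR : StmRnd) (hN : StmNm) (hpot : StmPot) (hHl : StmHl) : StmMain := by
  classical
  intro n k h t q hh hht hhk hkt htk hq hF
  obtain ⟨u, hu⟩ : ∃ u, u = n / (t * k) := ⟨_, rfl⟩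
  have hk1 : 1 ≤ k := by omega
  have ht1 : 1 ≤ t := by omega
  have htku : t * k * u ≤ n := by rw [hu]; exact Nat.mul_div_le n (t * k)
  have hkhu : k * (h * u) ≤ n := by
    calc k * (h * u) ≤ k * (t * u) := Nat.mul_le_mul_left _ (Nat.mul_le_mul_right _ hht)
      _ = t * k * u := by ring
      _ ≤ n := htku
  have hhu : h * u ≤ n := (Nat.le_mul_of_pos_left _ (by omega)).trans hkhu
  have hkn : k ≤ n := (Nat.le_mul_of_pos_left _ (by omega)).trans htk
  have hn0 : (0 : ℝ) < n := by exact_mod_cast (by omega : 0 < n)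
  have hk0 : (0 : ℝ) < k := by exact_mod_cast (by omega : 0 < k)
  have ht0 : (0 : ℝ) < t := by exact_mod_cast (by omega : 0 < t)
  have hC0 : (0 : ℝ) < (n.choose k : ℝ) := by exact_mod_cast Nat.choose_pos hkn
  have hCk0 : (0 : ℝ) < (k.choose h : ℝ) := by exact_mod_cast Nat.choose_pos hhk
  have hQ0 : (0 : ℝ) < (q : ℝ) + 1 := by positivity
  have hexp : ∀ w : ℕ, w ≤ h * u → Real.exp ((k : ℝ) * w / n) ≤ Real.exp 1 := by
    intro w hw
    apply Real.exp_le_exp.2
    rw [div_le_one hn0]
    have : k * w ≤ n := (Nat.mul_le_mul_left _ hw).trans hkhu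
    exact_mod_cast this
  have hCQ : (n.choose k : ℝ) * ((q : ℝ) + 1)⁻¹ ≤ n / (15 ^ (h + 2) * t * k) := by
    rw [← div_eq_mul_inv, div_le_div_iff₀ hQ0 (by positivity)]
    linarith
  obtain ⟨T, hT⟩ : ∃ T : Clause n → Finset (Finset (Fin n)),
      T = fun c => if c ∈ board n k then powersetCard h (vars c) else {∅} := ⟨_, rfl⟩
  have hTb : ∀ c ∈ board n k, T c = powersetCard h (vars c) := by
    intro c hc
    rw [hT]
    exact if_pos hc
  have hTne : ∀ c, (T c).Nonempty := by
    intro c
    by_cases hc : c ∈ board n k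
    · rw [hTb c hc, Finset.powersetCard_nonempty, vars_card hc]
      exact hhk
    · rw [hT]
      simp [hc]
  obtain ⟨d, hd, hdsum⟩ := hR (Clause n) (Finset (Fin n)) (Finset (Fin n)) T hTne
    (powersetCard (h * u) univ) (fun W => fam1 n k W) (fun W P => P ⊆ W) u
  have hdb : ∀ c ∈ board n k, d c ⊆ vars c ∧ (d c).card = h := by
    intro c hc
    have := hd c
    rw [hTb c hc, Finset.mem_powersetCard] at this
    exact this
  obtain ⟨b1, hb1⟩ : ∃ b1 : ℝ, b1 = (((h * u).choose h : ℝ) * (2 * k / n) ^ h * Real.exp 1 * n /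
      (15 ^ (h + 2) * t * k * (k.choose h : ℝ))) := ⟨_, rfl⟩
  have hf1 : ∀ W ∈ powersetCard (h * u) (univ : Finset (Fin n)),
      (∑ c ∈ fam1 n k W, (((T c).filter (fun P => P ⊆ W)).card : ℝ) / ((T c).card : ℝ)) *
        ((q : ℝ) + 1)⁻¹ ≤ b1 := by
    intro W hW
    have hWc : W.card = h * u := (Finset.mem_powersetCard.1 hW).2
    have e1 : ∑ c ∈ fam1 n k W, (((T c).filter (fun P => P ⊆ W)).card : ℝ) / ((T c).card : ℝ) =
        (∑ c ∈ fam1 n k W, (((powersetCard h (vars c)).filter (fun P => P ⊆ W)).card : ℝ)) /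
          (k.choose h : ℝ) := by
      rw [Finset.sum_div]
      apply Finset.sum_congr rfl
      intro c hc
      have hcb : c ∈ board n k := by
        unfold fam1 at hc
        exact (Finset.mem_filter.1 hc).1
      rw [hTb c hcb, Finset.card_powersetCard, vars_card hcb]
    have e2 : (∑ c ∈ fam1 n k W, (((powersetCard h (vars c)).filter (fun P => P ⊆ W)).card : ℝ)) ≤
        ((h * u).choose h : ℝ) * ((n.choose k : ℝ) * (2 * k / n) ^ h * Real.exp 1) := by
      have e3 := (hWt n k h hk1 hhk hkn W).1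
      rw [hWc] at e3
      have e4 := hexp (h * u) le_rfl
      refine le_trans (le_trans (le_of_eq ?_) e3) ?_
      · apply Finset.sum_congr rfl
        intro c _
        congr!
      · apply mul_le_mul_of_nonneg_left _ (by positivity)
        apply mul_le_mul_of_nonneg_left _ (by positivity)
        exact e4
    rw [e1]
    calc (∑ c ∈ fam1 n k W, (((powersetCard h (vars c)).filter (fun P => P ⊆ W)).card : ℝ)) /
          (k.choose h : ℝ) * ((q : ℝ) + 1)⁻¹
        ≤ (((h * u).choose h : ℝ) * ((n.choose k : ℝ) * (2 * k / n) ^ h * Real.exp 1)) /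
          (k.choose h : ℝ) * ((q : ℝ) + 1)⁻¹ := by
          apply mul_le_mul_of_nonneg_right _ (by positivity)
          exact div_le_div_of_nonneg_right e2 hCk0.le
      _ = (((h * u).choose h : ℝ) * (2 * k / n) ^ h * Real.exp 1 / (k.choose h : ℝ)) *
          ((n.choose k : ℝ) * ((q : ℝ) + 1)⁻¹) := by
          ring
      _ ≤ (((h * u).choose h : ℝ) * (2 * k / n) ^ h * Real.exp 1 / (k.choose h : ℝ)) *
          (n / (15 ^ (h + 2) * t * k)) :=
          mul_le_mul_of_nonneg_left hCQ (by positivity)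
      _ = b1 := by
          rw [hb1, div_mul_div_comm]
          congr 1
          ring
  have hf2 : ∀ W : Finset (Fin n), W.card ≤ h * u →
      ((famh n k h W).card : ℝ) * ((q : ℝ) + 1)⁻¹ ≤
        (W.card.choose h : ℝ) * (2 * k / n) ^ h * Real.exp 1 * n / (15 ^ (h + 2) * t * k) := by
    intro W hW
    have h1 := (hWt n k h hk1 hhk hkn W).2
    have h2 := hexp W.card hW
    calc ((famh n k h W).card : ℝ) * ((q : ℝ) + 1)⁻¹
        ≤ ((W.card.choose h : ℝ) * ((n.choose k : ℝ) * (2 * k / n) ^ h * Real.exp 1)) *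
          ((q : ℝ) + 1)⁻¹ := by
          apply mul_le_mul_of_nonneg_right _ (by positivity)
          refine h1.trans ?_
          apply mul_le_mul_of_nonneg_left _ (by positivity)
          exact mul_le_mul_of_nonneg_left h2 (by positivity)
      _ = ((W.card.choose h : ℝ) * (2 * k / n) ^ h * Real.exp 1) *
          ((n.choose k : ℝ) * ((q : ℝ) + 1)⁻¹) := by ring
      _ ≤ ((W.card.choose h : ℝ) * (2 * k / n) ^ h * Real.exp 1) *
          (n / (15 ^ (h + 2) * t * k)) :=
          mul_le_mul_of_nonneg_left hCQ (by positivity)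
      _ = _ := by ring
  obtain ⟨I1, hI1⟩ : ∃ I1 : Finset (Σ _ : Finset (Fin n), Finset (Clause n)),
      I1 = (powersetCard (h * u) univ).sigma
        (fun W => (powersetCard u (fam1 n k W)).filter (fun U => ∀ c ∈ U, d c ⊆ W)) := ⟨_, rfl⟩
  obtain ⟨I2, hI2⟩ : ∃ I2 : Finset (Σ _ : ℕ, Σ _ : Finset (Fin n), Finset (Clause n)),
      I2 = (range (h * u + 1)).sigma (fun y => (powersetCard y univ).sigma
        (fun W => powersetCard (y + 1) (famh n k h W))) := ⟨_, rfl⟩
  have hs1 : ∑ i ∈ I1, ((q : ℝ) + 1)⁻¹ ^ (i.2 \ (∅ : Finset (Clause n))).card ≤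
      (n.choose (h * u) : ℝ) * (b1 ^ u / (u.factorial : ℝ)) := by
    rw [hI1, Finset.sum_sigma]
    calc _ = ∑ W ∈ powersetCard (h * u) (univ : Finset (Fin n)),
          (((powersetCard u (fam1 n k W)).filter (fun U => ∀ c ∈ U, d c ⊆ W)).card : ℝ) *
            ((q : ℝ) + 1)⁻¹ ^ u := by
          apply Finset.sum_congr rfl
          intro W hW
          rw [Finset.sum_congr rfl (g := fun _ => ((q : ℝ) + 1)⁻¹ ^ u), Finset.sum_const, nsmul_eq_mul]
          intro s hs
          rw [Finset.sdiff_empty, (Finset.mem_powersetCard.1 (Finset.mem_filter.1 hs).1).2]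
      _ = (∑ W ∈ powersetCard (h * u) (univ : Finset (Fin n)),
          (((powersetCard u (fam1 n k W)).filter (fun U => ∀ c ∈ U, d c ⊆ W)).card : ℝ)) *
            ((q : ℝ) + 1)⁻¹ ^ u := by rw [Finset.sum_mul]
      _ ≤ (∑ W ∈ powersetCard (h * u) (univ : Finset (Fin n)),
          (∑ c ∈ fam1 n k W, (((T c).filter (fun P => P ⊆ W)).card : ℝ) / ((T c).card : ℝ)) ^ u /
            (u.factorial : ℝ)) * ((q : ℝ) + 1)⁻¹ ^ u := by
          apply mul_le_mul_of_nonneg_right _ (by positivity)
          refine le_trans (le_trans (le_of_eq ?_) hdsum) (le_of_eq ?_)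
          · apply Finset.sum_congr rfl
            intro W _
            congr!
          · apply Finset.sum_congr rfl
            intro W _
            congr!
      _ = ∑ W ∈ powersetCard (h * u) (univ : Finset (Fin n)),
          ((∑ c ∈ fam1 n k W, (((T c).filter (fun P => P ⊆ W)).card : ℝ) / ((T c).card : ℝ)) *
            ((q : ℝ) + 1)⁻¹) ^ u / (u.factorial : ℝ) := by
          rw [Finset.sum_mul]
          apply Finset.sum_congr rfl
          intro W _
          rw [mul_pow]
          ring
      _ ≤ ∑ W ∈ powersetCard (h * u) (univ : Finset (Fin n)), (b1 ^ u / (u.factorial : ℝ)) := by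
          apply Finset.sum_le_sum
          intro W hW
          apply div_le_div_of_nonneg_right _ (by positivity)
          refine pow_le_pow_left₀ ?_ (hf1 W hW) u
          apply mul_nonneg _ (by positivity)
          apply Finset.sum_nonneg
          intro c _
          positivity
      _ = _ := by
          rw [Finset.sum_const, Finset.card_powersetCard, nsmul_eq_mul]
          simp
  have hs2 : ∑ i ∈ I2, ((q : ℝ) + 1)⁻¹ ^ (i.2.2 \ (∅ : Finset (Clause n))).card ≤
      ∑ y ∈ Finset.range (h * u + 1), (n.choose y : ℝ) *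
      (((y.choose h : ℝ) * (2 * k / n) ^ h * Real.exp 1 * n / (15 ^ (h + 2) * t * k)) ^ (y + 1) /
        ((y + 1).factorial : ℝ)) := by
    rw [hI2, Finset.sum_sigma]
    apply Finset.sum_le_sum
    intro y hy
    have hy2 : y ≤ h * u := by
      have := Finset.mem_range.1 hy
      omega
    rw [Finset.sum_sigma]
    calc _ ≤ ∑ W ∈ powersetCard y (univ : Finset (Fin n)),
          (((y.choose h : ℝ) * (2 * k / n) ^ h * Real.exp 1 * n / (15 ^ (h + 2) * t * k)) ^ (y + 1) /
            ((y + 1).factorial : ℝ)) := by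
          apply Finset.sum_le_sum
          intro W hW
          have hWc := (Finset.mem_powersetCard.1 hW).2
          have h1 : ∑ s ∈ powersetCard (y + 1) (famh n k h W),
              ((q : ℝ) + 1)⁻¹ ^ (s \ (∅ : Finset (Clause n))).card =
              ((famh n k h W).card.choose (y + 1) : ℝ) * ((q : ℝ) + 1)⁻¹ ^ (y + 1) := by
            rw [Finset.sum_congr rfl (g := fun _ => ((q : ℝ) + 1)⁻¹ ^ (y + 1)), Finset.sum_const,
              Finset.card_powersetCard, nsmul_eq_mul]
            intro s hs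
            rw [Finset.sdiff_empty, (Finset.mem_powersetCard.1 hs).2]
          rw [h1]
          calc ((famh n k h W).card.choose (y + 1) : ℝ) * ((q : ℝ) + 1)⁻¹ ^ (y + 1)
              ≤ (((famh n k h W).card : ℝ) ^ (y + 1) / ((y + 1).factorial : ℝ)) *
                  ((q : ℝ) + 1)⁻¹ ^ (y + 1) :=
                mul_le_mul_of_nonneg_right (Nat.choose_le_pow_div _ _) (by positivity)
            _ = (((famh n k h W).card : ℝ) * ((q : ℝ) + 1)⁻¹) ^ (y + 1) / ((y + 1).factorial : ℝ) := by
                rw [mul_pow]; ring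
            _ ≤ _ := by
                apply div_le_div_of_nonneg_right _ (by positivity)
                have h3 := hf2 W (by omega)
                rw [hWc] at h3
                exact pow_le_pow_left₀ (by positivity) h3 (y + 1)
      _ = _ := by
          rw [Finset.sum_const, Finset.card_powersetCard, nsmul_eq_mul]
          simp
  have hnum := hN n k h t u hh hht hhk hkt htk hu
  rw [← hb1] at hnum
  obtain ⟨Y', hY'sub, hY'sat, hY'⟩ := hpot (Clause n)
    ((Σ _ : Finset (Fin n), Finset (Clause n)) ⊕ (Σ _ : ℕ, Σ _ : Finset (Fin n), Finset (Clause n))) q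
    (fun Y : Finset (Clause n) => ¬ Sat Y) (I1.disjSum I2)
    (Sum.elim (fun i => i.2) (fun i => i.2.2)) (board n k) ∅ hF (by
      refine lt_of_le_of_lt ?_ hnum
      rw [Finset.sum_disjSum]
      refine add_le_add (le_trans (Finset.sum_le_sum fun i _ => ?_) hs1)
        (le_trans (Finset.sum_le_sum fun i _ => ?_) hs2)
      · exact ite_le_of_nonneg' (by positivity)
      · exact ite_le_of_nonneg' (by positivity)) (by simp)
  have hYb : Y' ⊆ board n k := by simpa using hY'sub
  apply hY'sat
  apply hHl n k h u Y' d (by omega) hhu hYb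
  · intro c hc
    exact hdb c (hYb hc)
  · intro W hW U hU hUc hUf
    apply hY' (Sum.inl ⟨W, U⟩) _ hU
    rw [Finset.inl_mem_disjSum, hI1, Finset.mem_sigma]
    refine ⟨Finset.mem_powersetCard.2 ⟨Finset.subset_univ _, hW⟩, ?_⟩
    rw [Finset.mem_filter]
    refine ⟨Finset.mem_powersetCard.2 ⟨?_, hUc⟩, fun c hc => (hUf c hc).2⟩
    intro c hc
    unfold fam1
    rw [Finset.mem_filter]
    exact ⟨hYb (hU hc), (hUf c hc).1⟩
  · intro W hW U hU hUc hUf
    apply hY' (Sum.inr ⟨W.card, W, U⟩) _ hU
    rw [Finset.inr_mem_disjSum, hI2, Finset.mem_sigma]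
    refine ⟨Finset.mem_range.2 (by show W.card < h * u + 1; omega), ?_⟩
    rw [Finset.mem_sigma]
    exact ⟨Finset.mem_powersetCard.2 ⟨Finset.subset_univ _, rfl⟩, Finset.mem_powersetCard.2 ⟨hUf, hUc⟩⟩

end Pool.Agent.T6.H63.WL
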