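import Pool.Agent.T6.H63.WL.Defs

/-! Project WL (`MP_fefad7_co`), module NM: the numerical inequality. -/

set_option autoImplicit false

open Finset

namespace Pool.Agent.T6.H63.WL

namespace NM

lemma pow_le_choose' : ∀ h k : ℕ, h ≤ k → 1 ≤ h → ((k : ℝ) / h) ^ h ≤ (k.choose h : ℝ) := by
  intro h
  induction h with
  | zero => intro k _ h1; omega
  | succ h ih =>
    intro k hk _
    obtain ⟨k', rfl⟩ : ∃ k', k = k' + 1 := ⟨k - 1, by omega⟩
    have hk' : h ≤ k' := by omega
    have e : ((k' : ℝ) + 1) * (k'.choose h : ℝ) = ((k' + 1).choose (h + 1) : ℝ) * ((h : ℝ) + 1) := by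
      exact_mod_cast Nat.add_one_mul_choose_eq k' h
    have hh : (0 : ℝ) < (h : ℝ) + 1 := by positivity
    have e2 : ((k' + 1).choose (h + 1) : ℝ) = ((k' : ℝ) + 1) / (h + 1) * (k'.choose h : ℝ) := by
      rw [div_mul_eq_mul_div, e, mul_div_cancel_right₀ _ hh.ne']
    rw [e2]
    push_cast
    rw [pow_succ, mul_comm]
    apply mul_le_mul_of_nonneg_left _ (by positivity)
    rcases Nat.eq_zero_or_pos h with h0 | h0
    · subst h0
      simp
    · have hr : (0 : ℝ) < h := by exact_mod_cast h0
      refine le_trans (pow_le_pow_left₀ (by positivity) ?_ h) (ih k' hk' h0)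
      rw [div_le_div_iff₀ hh hr]
      have : (h : ℝ) ≤ k' := by exact_mod_cast hk'
      nlinarith

end NM

theorem nm : StmNm := by
  intro n k h t u hh ht hhk hkt htk hu
  have hE1 : Real.exp 1 < 2.7182818286 := Real.exp_one_lt_d9
  have hE0 : 0 < Real.exp 1 := Real.exp_pos 1
  obtain ⟨E, hE⟩ : ∃ E : ℝ, E = Real.exp 1 := ⟨_, rfl⟩
  rw [← hE] at hE1 hE0 ⊢
  have hexp : ∀ m : ℕ, Real.exp (m : ℝ) = E ^ m := by
    intro m
    rw [hE, ← Real.exp_nat_mul, mul_one]
  have hf : ∀ a m : ℕ, (a : ℝ) ^ m / (m.factorial : ℝ) ≤ E ^ a := by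
    intro a m
    rw [← hexp]
    exact Real.pow_div_factorial_le_exp _ (Nat.cast_nonneg _) _
  have hk1 : 1 ≤ k := by omega
  have ht1 : 1 ≤ t := by omega
  have htk1 : 1 ≤ t * k := Nat.mul_pos ht1 hk1
  have hu1 : 1 ≤ u := by
    rw [hu]
    exact (Nat.one_le_div_iff htk1).2 htk
  have hu2 : t * k * u ≤ n := by rw [hu]; exact Nat.mul_div_le n (t * k)
  have hu3 : n < t * k * (u + 1) := by rw [hu]; exact Nat.lt_mul_div_succ n htk1
  have hhr : (2 : ℝ) ≤ h := by exact_mod_cast hh
  have hh0 : (0 : ℝ) < h := by linarith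
  have hk0 : (0 : ℝ) < k := by exact_mod_cast hk1
  have ht0 : (0 : ℝ) < t := by exact_mod_cast ht1
  have hu0 : (0 : ℝ) < u := by exact_mod_cast hu1
  have hn1 : 1 ≤ n := le_trans htk1 htk
  have hn0 : (0 : ℝ) < n := by exact_mod_cast hn1
  have hu2r : (t : ℝ) * k * u ≤ n := by exact_mod_cast hu2
  have hu3r : (n : ℝ) < t * k * (u + 1) := by exact_mod_cast hu3
  have hu1r : (1 : ℝ) ≤ u := by exact_mod_cast hu1
  obtain ⟨A, hA⟩ : ∃ A : ℝ, A = 15 ^ (h + 2) := ⟨_, rfl⟩
  rw [← hA]
  have hA0 : 0 < A := by rw [hA]; positivity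
  have hE2 : 2 * E ^ 2 ≤ 15 := by
    have : E ^ 2 ≤ 2.7182818286 ^ 2 := pow_le_pow_left₀ hE0.le hE1.le 2
    have h2 : (2.7182818286 : ℝ) ^ 2 ≤ 7.5 := by norm_num
    linarith
  have hE3 : E ^ 3 ≤ 21 := by
    have : E ^ 3 ≤ 2.7182818286 ^ 3 := pow_le_pow_left₀ hE0.le hE1.le 3
    have h2 : (2.7182818286 : ℝ) ^ 3 ≤ 21 := by norm_num
    linarith
  -- the first term
  have first : (n.choose (h * u) : ℝ) * ((((h * u).choose h : ℝ) * (2 * k / n) ^ h * E * n /
      (A * t * k * (k.choose h : ℝ))) ^ u / (u.factorial : ℝ)) ≤ 1 / 15 := by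
    obtain ⟨X, hX⟩ : ∃ X : ℝ, X = (E * u) ^ h / ((k : ℝ) / h) ^ h * ((2 * k / n) ^ h * E * n / (A * t * k)) :=
      ⟨_, rfl⟩
    have hX0 : 0 ≤ X := by rw [hX]; positivity
    have t1 : (n.choose (h * u) : ℝ) ≤ (n / (h * u)) ^ (h * u) * E ^ (h * u) := by
      calc (n.choose (h * u) : ℝ) ≤ (n : ℝ) ^ (h * u) / ((h * u).factorial : ℝ) :=
            Nat.choose_le_pow_div _ _
        _ = (n / (h * u)) ^ (h * u) * (((h * u : ℕ) : ℝ) ^ (h * u) / ((h * u).factorial : ℝ)) := by
            rw [← mul_div_assoc, ← mul_pow]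
            congr 2
            push_cast
            field_simp
        _ ≤ _ := mul_le_mul_of_nonneg_left (hf _ _) (by positivity)
    have c1 : ((h * u).choose h : ℝ) ≤ (E * u) ^ h := by
      calc ((h * u).choose h : ℝ) ≤ ((h * u : ℕ) : ℝ) ^ h / (h.factorial : ℝ) :=
            Nat.choose_le_pow_div _ _
        _ = (u : ℝ) ^ h * ((h : ℝ) ^ h / (h.factorial : ℝ)) := by
            push_cast
            rw [mul_pow]
            ring
        _ ≤ (u : ℝ) ^ h * E ^ h := mul_le_mul_of_nonneg_left (hf _ _) (by positivity)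
        _ = (E * u) ^ h := by rw [mul_pow]; ring
    have c2 := NM.pow_le_choose' h k hhk (by omega)
    have c20 : 0 < ((k : ℝ) / h) ^ h := by positivity
    have q1 : ((h * u).choose h : ℝ) * (2 * k / n) ^ h * E * n / (A * t * k * (k.choose h : ℝ)) ≤ X := by
      have e : ((h * u).choose h : ℝ) * (2 * k / n) ^ h * E * n / (A * t * k * (k.choose h : ℝ)) =
          ((h * u).choose h : ℝ) / (k.choose h : ℝ) * ((2 * k / n) ^ h * E * n / (A * t * k)) := by
        have : (0 : ℝ) < (k.choose h : ℝ) := lt_of_lt_of_le c20 c2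
        field_simp
      rw [e, hX]
      apply mul_le_mul_of_nonneg_right _ (by positivity)
      exact div_le_div₀ (by positivity) c1 c20 c2
    have t2 : ((((h * u).choose h : ℝ) * (2 * k / n) ^ h * E * n /
        (A * t * k * (k.choose h : ℝ))) ^ u / (u.factorial : ℝ)) ≤ (X / u) ^ u * E ^ u := by
      calc ((((h * u).choose h : ℝ) * (2 * k / n) ^ h * E * n /
        (A * t * k * (k.choose h : ℝ))) ^ u / (u.factorial : ℝ)) ≤ X ^ u / (u.factorial : ℝ) :=
            div_le_div_of_nonneg_right (pow_le_pow_left₀ (by positivity) q1 u) (by positivity)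
        _ = (X / u) ^ u * ((u : ℝ) ^ u / (u.factorial : ℝ)) := by
            rw [← mul_div_assoc, ← mul_pow]
            congr 2
            field_simp
        _ ≤ _ := mul_le_mul_of_nonneg_left (hf _ _) (by positivity)
    have t3 : (n / (h * u) : ℝ) ^ (h * u) * E ^ (h * u) * ((X / u) ^ u * E ^ u) =
        ((n / (h * u)) ^ h * E ^ h * (X / u) * E) ^ u := by
      rw [mul_pow _ E, mul_pow _ (X / (u : ℝ)), mul_pow, ← pow_mul, ← pow_mul]
      ring
    have t4 : ((n : ℝ) / (h * u)) ^ h * E ^ h * (X / u) * E ≤ 1 / 15 := by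
      have e : ((n : ℝ) / (h * u)) ^ h * E ^ h * (X / u) * E =
          (2 * E ^ 2) ^ h * (E ^ 2 * (n / (t * k * u))) / A := by
        rw [hX, ← div_pow]
        have e2 : ((n : ℝ) / (h * u)) ^ h * E ^ h * ((E * u / (k / h)) ^ h *
            ((2 * k / n) ^ h * E * n / (A * t * k)) / u) * E =
            ((n : ℝ) / (h * u) * E * (E * u / (k / h)) * (2 * k / n)) ^ h *
              (E * n / (A * t * k) / u * E) := by
          rw [mul_pow, mul_pow, mul_pow]
          ring
        rw [e2]
        have e3 : (n : ℝ) / (h * u) * E * (E * u / (k / h)) * (2 * k / n) = 2 * E ^ 2 := by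
          field_simp
        rw [e3]
        field_simp
      rw [e]
      have hnu : (n : ℝ) / (t * k * u) ≤ 2 := by
        rw [div_le_iff₀ (by positivity)]
        have : (t : ℝ) * k * 1 ≤ t * k * u := mul_le_mul_of_nonneg_left hu1r (by positivity)
        linarith
      have h1 : E ^ 2 * ((n : ℝ) / (t * k * u)) ≤ 15 := by
        have : E ^ 2 * ((n : ℝ) / (t * k * u)) ≤ E ^ 2 * 2 := mul_le_mul_of_nonneg_left hnu (by positivity)
        linarith
      have h2 : (2 * E ^ 2) ^ h ≤ 15 ^ h := pow_le_pow_left₀ (by positivity) hE2 h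
      rw [div_le_iff₀ hA0, hA]
      calc (2 * E ^ 2) ^ h * (E ^ 2 * ((n : ℝ) / (t * k * u))) ≤ 15 ^ h * 15 :=
            mul_le_mul h2 h1 (by positivity) (by positivity)
        _ = 1 / 15 * 15 ^ (h + 2) := by rw [pow_add]; ring
    have t5 := mul_le_mul t1 t2 (by positivity) (by positivity)
    rw [t3] at t5
    refine t5.trans ((pow_le_pow_left₀ (by positivity) t4 u).trans ?_)
    calc (1 / 15 : ℝ) ^ u ≤ (1 / 15) ^ 1 := pow_le_pow_of_le_one (by norm_num) (by norm_num) hu1
      _ = 1 / 15 := by norm_num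
  -- the second sum
  have second : ∀ y ∈ Finset.range (h * u + 1), (n.choose y : ℝ) *
      (((y.choose h : ℝ) * (2 * k / n) ^ h * E * n / (A * t * k)) ^ (y + 1) /
        ((y + 1).factorial : ℝ)) ≤ 1 / 8 * (1 / 2) ^ y := by
    intro y hy
    rw [Finset.mem_range] at hy
    rcases Nat.eq_zero_or_pos y with h0 | h0
    · subst h0
      have : Nat.choose 0 h = 0 := Nat.choose_eq_zero_of_lt (by omega)
      rw [this]
      norm_num
    · have hy0 : (0 : ℝ) < y := by exact_mod_cast h0
      have hyh : (y : ℝ) ≤ h * u := by exact_mod_cast (by omega : y ≤ h * u)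
      obtain ⟨s, hs⟩ : ∃ s : ℝ, s = y / n := ⟨_, rfl⟩
      have hs0 : 0 < s := by rw [hs]; positivity
      have hsn : (y : ℝ) = s * n := by rw [hs]; field_simp
      have hs1 : s * (t * k) ≤ h := by
        rw [hs, div_mul_eq_mul_div, div_le_iff₀ hn0]
        calc (y : ℝ) * (t * k) ≤ h * u * (t * k) := mul_le_mul_of_nonneg_right hyh (by positivity)
          _ = h * (t * k * u) := by ring
          _ ≤ h * n := mul_le_mul_of_nonneg_left hu2r hh0.le
      have htkh : (h : ℝ) ≤ t * k := by
        have : h ≤ t * k := ht.trans (Nat.le_mul_of_pos_right t hk1)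
        exact_mod_cast this
      have hs2 : s ≤ 1 := by
        by_contra hcon
        push Not at hcon
        have : 1 * ((t : ℝ) * k) < s * (t * k) := mul_lt_mul_of_pos_right hcon (by positivity)
        linarith
      obtain ⟨X, hX⟩ : ∃ X : ℝ, X = ((y : ℝ) / h) ^ h * E ^ h * (2 * k / n) ^ h * E * n / (A * t * k) :=
        ⟨_, rfl⟩
      have hX0 : 0 ≤ X := by rw [hX]; positivity
      have t1 : (n.choose y : ℝ) ≤ (n / y) ^ y * E ^ y := by
        calc (n.choose y : ℝ) ≤ (n : ℝ) ^ y / (y.factorial : ℝ) := Nat.choose_le_pow_div _ _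
          _ = (n / y) ^ y * ((y : ℝ) ^ y / (y.factorial : ℝ)) := by
              rw [← mul_div_assoc, ← mul_pow]
              congr 2
              field_simp
          _ ≤ _ := mul_le_mul_of_nonneg_left (hf _ _) (by positivity)
      have c1 : (y.choose h : ℝ) ≤ ((y : ℝ) / h) ^ h * E ^ h := by
        calc (y.choose h : ℝ) ≤ (y : ℝ) ^ h / (h.factorial : ℝ) := Nat.choose_le_pow_div _ _
          _ = ((y : ℝ) / h) ^ h * ((h : ℝ) ^ h / (h.factorial : ℝ)) := by
              rw [← mul_div_assoc, ← mul_pow]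
              congr 2
              field_simp
          _ ≤ _ := mul_le_mul_of_nonneg_left (hf _ _) (by positivity)
      have q1 : (y.choose h : ℝ) * (2 * k / n) ^ h * E * n / (A * t * k) ≤ X := by
        rw [hX]
        apply div_le_div_of_nonneg_right _ (by positivity)
        apply mul_le_mul_of_nonneg_right _ hn0.le
        apply mul_le_mul_of_nonneg_right _ hE0.le
        exact mul_le_mul_of_nonneg_right c1 (by positivity)
      have t2 : ((y.choose h : ℝ) * (2 * k / n) ^ h * E * n / (A * t * k)) ^ (y + 1) /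
          ((y + 1).factorial : ℝ) ≤ (X / y) ^ (y + 1) * E ^ y := by
        calc ((y.choose h : ℝ) * (2 * k / n) ^ h * E * n / (A * t * k)) ^ (y + 1) /
          ((y + 1).factorial : ℝ) ≤ X ^ (y + 1) / ((y + 1).factorial : ℝ) :=
              div_le_div_of_nonneg_right (pow_le_pow_left₀ (by positivity) q1 _) (by positivity)
          _ = (X / y) ^ (y + 1) * ((y : ℝ) ^ (y + 1) / ((y + 1).factorial : ℝ)) := by
              rw [← mul_div_assoc, ← mul_pow]
              congr 2
              field_simp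
          _ ≤ _ := mul_le_mul_of_nonneg_left (hf _ _) (by positivity)
      have t3 : ((n : ℝ) / y) ^ y * E ^ y * ((X / y) ^ (y + 1) * E ^ y) =
          (X / y) * (n / y * E * (X / y) * E) ^ y := by
        rw [mul_pow _ E, mul_pow _ (X / (y : ℝ)), mul_pow _ E, pow_succ]
        ring
      -- the number `G`
      obtain ⟨G, hG⟩ : ∃ G : ℝ, G = (k * s / h) ^ h / (t * k * s ^ 2) := ⟨_, rfl⟩
      have hG0 : 0 ≤ G := by rw [hG]; positivity
      have hG1 : G ≤ 1 / 4 := by
        obtain ⟨j, rfl⟩ : ∃ j, h = j + 2 := ⟨h - 2, by omega⟩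
        obtain ⟨H, hH⟩ : ∃ H : ℝ, H = ((j + 2 : ℕ) : ℝ) := ⟨_, rfl⟩
        rw [← hH] at hhr hh0 hs1 hG
        have ha : (k : ℝ) * s / H ≤ 1 / t := by
          rw [div_le_div_iff₀ hh0 ht0]
          linarith
        have hkt' : (k : ℝ) ≤ (t : ℝ) ^ (j + 1) := by
          have : k ≤ t ^ (j + 2 - 1) := hkt
          have e : j + 2 - 1 = j + 1 := by omega
          rw [e] at this
          exact_mod_cast this
        have e : G = (k * s / H) ^ j * (k / (H ^ 2 * t)) := by
          rw [hG, pow_add]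
          field_simp
        rw [e]
        calc (k * s / H) ^ j * (k / (H ^ 2 * t)) ≤ (1 / t) ^ j * (t ^ (j + 1) / (2 ^ 2 * t)) := by
              apply mul_le_mul (pow_le_pow_left₀ (by positivity) ha j) _ (by positivity) (by positivity)
              apply div_le_div₀ (by positivity) hkt' (by positivity)
              apply mul_le_mul_of_nonneg_right _ ht0.le
              exact pow_le_pow_left₀ (by norm_num) hhr 2
          _ = 1 / 4 := by
              rw [pow_succ, one_div, inv_pow]
              field_simp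
              norm_num
      have hM : n / y * (X / y) = (2 * E) ^ h * E * G / A := by
        rw [hX, hG]
        have e2 : ((y : ℝ) / h) ^ h * E ^ h * (2 * k / n) ^ h = (2 * E) ^ h * (k * s / h) ^ h := by
          rw [← mul_pow, ← mul_pow, ← mul_pow, hs]
          congr 1
          field_simp
        rw [e2, hsn]
        field_simp
      have hb : (2 * E) ^ h / A ≤ 1 / 225 := by
        rw [div_le_iff₀ hA0, hA, pow_add]
        have : (2 * E) ^ h ≤ 15 ^ h := pow_le_pow_left₀ (by positivity) (by linarith) h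
        linarith
      have hb0 : 0 ≤ (2 * E) ^ h / A := by positivity
      have hM2 : n / y * (X / y) = (2 * E) ^ h / A * (E * G) := by rw [hM]; ring
      have t4 : (n : ℝ) / y * E * (X / y) * E ≤ 1 / 2 := by
        have e : (n : ℝ) / y * E * (X / y) * E = (2 * E) ^ h / A * (E ^ 3 * G) := by
          calc (n : ℝ) / y * E * (X / y) * E = n / y * (X / y) * E ^ 2 := by ring
            _ = _ := by rw [hM2]; ring
        rw [e]
        have h1 : E ^ 3 * G ≤ 21 * (1 / 4) := mul_le_mul hE3 hG1 hG0 (by norm_num)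
        have h2 : (2 * E) ^ h / A * (E ^ 3 * G) ≤ 1 / 225 * (21 * (1 / 4)) :=
          mul_le_mul hb h1 (by positivity) (by norm_num)
        linarith
      have t5 : X / y ≤ 1 / 8 := by
        have e : X / y = s * (n / y * (X / y)) := by
          rw [hs]
          field_simp
        rw [e, hM2]
        have h1 : E * G ≤ 3 * (1 / 4) := mul_le_mul (by linarith) hG1 hG0 (by norm_num)
        have h2 : (2 * E) ^ h / A * (E * G) ≤ 1 / 225 * (3 * (1 / 4)) :=
          mul_le_mul hb h1 (by positivity) (by norm_num)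
        have h3 : s * ((2 * E) ^ h / A * (E * G)) ≤ 1 * (1 / 225 * (3 * (1 / 4))) :=
          mul_le_mul hs2 h2 (by positivity) (by norm_num)
        linarith
      refine (mul_le_mul t1 t2 (by positivity) (by positivity)).trans ?_
      rw [t3]
      exact mul_le_mul t5 (pow_le_pow_left₀ (by positivity) t4 y) (by positivity) (by norm_num)
  have h3 := Finset.sum_le_sum second
  rw [← Finset.mul_sum] at h3
  have h4 := sum_geometric_two_le (h * u + 1)
  linarith

end Pool.Agent.T6.H63.WL
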