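import Pool.Agent.T6.H63.WK.Defs

/-!
# Waiter-Client `k`-SAT: Client wins if `n (q + 1) ≥ 15^(h+2) t k (n choose k)` with `h ≤ t`, `k ≤ t^(h-1)`
(so `k^(1+δ)` in place of `256 k^3`): statements of the modules
-/

set_option autoImplicit false

open Finset Pool.Agent.Y117.SG Pool.Agent.T6.H63.WK

namespace Pool.Agent.T6.H63.WL

open Classical in
noncomputable def famP (n k : ℕ) (W P : Finset (Fin n)) : Finset (Clause n) :=
  (board n k).filter (fun c => Out W c ∧ P ⊆ vars c)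

open Classical in
noncomputable def famh (n k h : ℕ) (W : Finset (Fin n)) : Finset (Clause n) :=
  (board n k).filter (fun c => Out W c ∧ h ≤ (vars c ∩ W).card)

/-- MODULE CT (as CNT2 of project WK, with an `h`-set `P` in place of a pair):
`∑ I ⊆ W, (k/n)^|I ∪ P| = 2^h (k/n)^h (1 + k/n)^(|W| - h)`. -/
def StmCt : Prop := ∀ n k h : ℕ, 1 ≤ k → h ≤ k → k ≤ n → ∀ W P : Finset (Fin n), P ⊆ W → P.card = h →
  ((famP n k W P).card : ℝ) ≤ (n.choose k : ℝ) * (2 * k / n) ^ h * Real.exp (k * W.card / n)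

open Classical in
/-- MODULE WT: from `StmCt` by double counting over the `h`-subsets `P` of `W`. -/
def StmWt : Prop := ∀ n k h : ℕ, 1 ≤ k → h ≤ k → k ≤ n → ∀ W : Finset (Fin n),
  (∑ c ∈ fam1 n k W, (((powersetCard h (vars c)).filter (fun P => P ⊆ W)).card : ℝ)) ≤
      (W.card.choose h : ℝ) * ((n.choose k : ℝ) * (2 * k / n) ^ h * Real.exp (k * W.card / n)) ∧
  ((famh n k h W).card : ℝ) ≤
      (W.card.choose h : ℝ) * ((n.choose k : ℝ) * (2 * k / n) ^ h * Real.exp (k * W.card / n))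

open Classical in
/-- MODULE RND: average over all choice functions `d`, `d c ∈ T c` (`Fintype.piFinset`): for fixed `i`, `U` the fraction
of `d` with `good i (d c)` for all `c ∈ U` is `∏ c ∈ U, p c`, and `∑ U, ∏ c ∈ U, p c ≤ (∑ p c)^u / u!`. -/
def StmRnd : Prop := ∀ (Ω Λ ι : Type) [Fintype Ω] (T : Ω → Finset Λ), (∀ c, (T c).Nonempty) →
  ∀ (I : Finset ι) (fam : ι → Finset Ω) (good : ι → Λ → Prop) (u : ℕ), ∃ d : Ω → Λ, (∀ c, d c ∈ T c) ∧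
    (∑ i ∈ I, (((powersetCard u (fam i)).filter (fun U => ∀ c ∈ U, good i (d c))).card : ℝ)) ≤
      ∑ i ∈ I, (∑ c ∈ fam i, (((T c).filter (fun P => good i P)).card : ℝ) / ((T c).card : ℝ)) ^ u /
        (u.factorial : ℝ)

/-- MODULE NM: numerical. First term: `C(n,hu) ≤ (en/(hu))^(hu)`, `C(hu,h) ≤ (hu)^h/h!`, `C(k,h) ≥ (k/h)^h`,
`1/u! ≤ (e/u)^u`, together `≤ ((2e^2)^h e^2 n/(A u))^u ≤ 15^(-u)` because `n/u ≤ 2tk`. Second: with `y/n ≤ h/(tk)` and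
`k ≤ t^(h-1)` the term is `≤ (1/n) y e^(2y) B^(y+1)`, `B = e (2e)^h / 15^(h+2) ≤ 0.0016`. -/
def StmNm : Prop := ∀ n k h t u : ℕ, 2 ≤ h → h ≤ t → h ≤ k → k ≤ t ^ (h - 1) → t * k ≤ n → u = n / (t * k) →
  (n.choose (h * u) : ℝ) * ((((h * u).choose h : ℝ) * (2 * k / n) ^ h * Real.exp 1 * n /
      (15 ^ (h + 2) * t * k * (k.choose h : ℝ))) ^ u / (u.factorial : ℝ)) +
    ∑ y ∈ Finset.range (h * u + 1), (n.choose y : ℝ) *
      (((y.choose h : ℝ) * (2 * k / n) ^ h * Real.exp 1 * n / (15 ^ (h + 2) * t * k)) ^ (y + 1) /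
        ((y + 1).factorial : ℝ)) < 1

/-- MODULE HL (mine). -/
def StmHl : Prop := ∀ (n k h u : ℕ) (F : Finset (Clause n)) (d : Clause n → Finset (Fin n)), 1 ≤ h → h * u ≤ n →
  F ⊆ board n k → (∀ c ∈ F, d c ⊆ vars c ∧ (d c).card = h) →
  (∀ W : Finset (Fin n), W.card = h * u → ∀ U ⊆ F, U.card = u → ¬ ∀ c ∈ U, Out W c ∧ d c ⊆ W) →
  (∀ Y : Finset (Fin n), Y.card ≤ h * u → ∀ S ⊆ F, S.card = Y.card + 1 → ¬ S ⊆ famh n k h Y) →
  Sat F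

/-- the main statement (assembly mine) -/
def StmMain : Prop := ∀ n k h t q : ℕ, 2 ≤ h → h ≤ t → h ≤ k → k ≤ t ^ (h - 1) → t * k ≤ n →
  (15 : ℝ) ^ (h + 2) * t * k * (n.choose k : ℝ) ≤ n * ((q : ℝ) + 1) →
    ¬ Forces (offerWC q) (fun Y : Finset (Clause n) => ¬ Sat Y) (board n k) ∅

/-- MODULE CR: `StmMain → StmCr`. Take `h` fixed with `1/(h-1) ≤ δ/4`, `t = ⌈k^(1/(h-1))⌉`; `q = ⌈A C(n,k)/n⌉`,
`bWC ≤ q` by `Nat.sInf_le`, `C(n,k) ≥ n`; compare `WK/Main.lean`, `ratio_of`. -/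
def StmCr : Prop := ∀ δ : ℝ, 0 < δ → ∃ k0 : ℕ, ∀ k ≥ k0, ∀ n ≥ k ^ 2,
  ((k : ℝ) ^ (1 + δ))⁻¹ ≤ 1 / (n : ℝ) * (n.choose k : ℝ) * ((bWC n k : ℝ))⁻¹ / Real.log 2

end Pool.Agent.T6.H63.WL
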