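import Pool.Agent.T6.H61.WL.RND
import Pool.Agent.T6.H63.WL.Defs

/-! Project WL, module RND (helper61): the proof is in `T6/H61/WL/RND.lean`. -/

set_option autoImplicit false

namespace Pool.Agent.T6.H63.WL

theorem rnd : StmRnd := fun Ω Λ ι _ T hT I fam good u =>
  Pool.Agent.T6.H61.WL.rnd Ω Λ ι T hT I fam good u

end Pool.Agent.T6.H63.WL
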