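import Pool.Agent.T6.H63.WL.Defs

/-! Project WL, module WT: double counting over the `h`-subsets of `W`. -/

set_option autoImplicit false

open Finset Pool.Agent.Y117.SG Pool.Agent.T6.H63.WK

namespace Pool.Agent.T6.H63.WL

namespace WTm

theorem swap_filter {n : ℕ} (h : ℕ) (V W : Finset (Fin n)) :
    (powersetCard h V).filter (fun P => P ⊆ W) = (powersetCard h W).filter (fun P => P ⊆ V) := by
  ext P
  simp only [mem_filter, mem_powersetCard]
  tauto

theorem sum_eq (n k h : ℕ) (W : Finset (Fin n)) :
    ∑ c ∈ fam1 n k W, ((powersetCard h (vars c)).filter (fun P => P ⊆ W)).card =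
      ∑ P ∈ powersetCard h W, (famP n k W P).card := by
  classical
  have h1 : ∀ P : Finset (Fin n), (famP n k W P).card =
      ∑ c ∈ fam1 n k W, (if P ⊆ vars c then 1 else 0) := by
    intro P
    rw [← card_filter]
    refine congrArg card ?_
    ext c
    simp only [famP, fam1, mem_filter]
    tauto
  rw [sum_congr rfl fun P _ => h1 P, sum_comm]
  refine sum_congr rfl fun c _ => ?_
  rw [swap_filter, card_filter]

end WTm

open WTm

theorem wt (hC : StmCt) : StmWt := by
  classical
  intro n k h hk hhk hkn W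
  have hA : (∑ c ∈ fam1 n k W, (((powersetCard h (vars c)).filter (fun P => P ⊆ W)).card : ℝ)) ≤
      (W.card.choose h : ℝ) *
        ((n.choose k : ℝ) * (2 * k / n) ^ h * Real.exp (k * W.card / n)) := by
    have e1 : (∑ c ∈ fam1 n k W,
        (((powersetCard h (vars c)).filter (fun P => P ⊆ W)).card : ℝ)) =
        ∑ P ∈ powersetCard h W, ((famP n k W P).card : ℝ) := by
      exact_mod_cast congrArg (Nat.cast : ℕ → ℝ) (sum_eq n k h W)
    rw [e1]
    refine (sum_le_sum fun P hP => hC n k h hk hhk hkn W P (mem_powersetCard.1 hP).1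
      (mem_powersetCard.1 hP).2).trans ?_
    rw [sum_const, card_powersetCard, nsmul_eq_mul]
  refine ⟨hA, le_trans ?_ hA⟩
  have hsub : famh n k h W ⊆ fam1 n k W := by
    intro c hc
    simp only [famh, fam1, mem_filter] at hc ⊢
    exact ⟨hc.1, hc.2.1⟩
  calc ((famh n k h W).card : ℝ) = ∑ _c ∈ famh n k h W, (1 : ℝ) := by simp
    _ ≤ ∑ c ∈ famh n k h W, (((powersetCard h (vars c)).filter (fun P => P ⊆ W)).card : ℝ) := by
        refine sum_le_sum fun c hc => ?_
        simp only [famh, mem_filter] at hc
        obtain ⟨P, hP1, hP2⟩ := Finset.exists_subset_card_eq hc.2.2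
        have hpos : 0 < ((powersetCard h (vars c)).filter (fun P => P ⊆ W)).card := by
          refine card_pos.2 ⟨P, ?_⟩
          rw [mem_filter, mem_powersetCard]
          exact ⟨⟨hP1.trans inter_subset_left, hP2⟩, hP1.trans inter_subset_right⟩
        exact_mod_cast hpos
    _ ≤ ∑ c ∈ fam1 n k W, (((powersetCard h (vars c)).filter (fun P => P ⊆ W)).card : ℝ) :=
        sum_le_sum_of_subset_of_nonneg hsub fun _ _ _ => Nat.cast_nonneg _

end Pool.Agent.T6.H63.WL
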