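import Pool.Agent.T6.H63.WL.MainB
import Pool.Agent.T6.H63.WL.HLB
import Pool.Agent.T6.H63.WL.CT
import Pool.Agent.T6.H63.WL.WT
import Pool.Agent.T6.H63.WL.RND
import Pool.Agent.T6.H63.WL.NM
import Pool.Agent.T6.H63.WL.CR
import Pool.Agent.T6.H63.WK.POT

set_option autoImplicit false

open Pool.Agent.Y117.SG

namespace Pool.Agent.T6.H63.WL

theorem stmMain : StmMain := main_of (wt ct) rnd nm Pool.Agent.T6.H63.WK.pot hlB

theorem stmCr : StmCr := cr stmMain

/-- for a fixed exponent `1 + δ`: Client wins -/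
theorem client_wins : ∀ n k h t q : ℕ, 2 ≤ h → h ≤ t → h ≤ k → k ≤ t ^ (h - 1) → t * k ≤ n →
    (15 : ℝ) ^ (h + 2) * t * k * (n.choose k : ℝ) ≤ n * ((q : ℝ) + 1) →
      ¬ Forces (offerWC q) (fun Y : Finset (Clause n) => ¬ Sat Y) (board n k) ∅ := stmMain

end Pool.Agent.T6.H63.WL
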