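import Pool.Agent.T6.H63.WL.Defs
import Pool.Agent.T6.H63.WK.Hall

set_option autoImplicit false

open Finset Pool.Agent.Y117.SG Pool.Agent.T6.H63.WK

namespace Pool.Agent.T6.H63.WL

theorem hl : StmHl := by
  classical
  intro n k h u F d hh hun hF hd h1 h2
  obtain ⟨P, hP⟩ : ∃ P : ℕ → Prop, P = fun m => ∃ (W : Finset (Fin n)) (U : Finset (Clause n)), U ⊆ F ∧ U.card = m ∧
    W.card ≤ h * m ∧ ∀ c ∈ U, Out W c ∧ d c ⊆ W := ⟨_, rfl⟩
  have P0 : P 0 := by
    rw [hP]
    exact ⟨∅, ∅, by simp, by simp, by simp, by simp⟩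
  have hm := Nat.findGreatest_spec (P := P) (Nat.zero_le u) P0
  have hmu := Nat.findGreatest_le (P := P) u
  have hmax : ∀ j, Nat.findGreatest P u < j → j ≤ u → ¬ P j := fun j hj hju =>
    Nat.findGreatest_is_greatest hj hju
  obtain ⟨m, hmdef⟩ : ∃ m, m = Nat.findGreatest P u := ⟨_, rfl⟩
  rw [← hmdef] at hm hmu hmax
  have hm' := hm
  rw [hP] at hm'
  obtain ⟨W, U, hUF, hUc, hWc, hU⟩ := hm'
  have hlt : m < u := by
    rcases Nat.lt_or_ge m u with hx | hx
    · exact hx
    exfalso
    have hmu' : m = u := le_antisymm hmu hx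
    obtain ⟨W', hWW', hW'⟩ : ∃ W' : Finset (Fin n), W ⊆ W' ∧ W'.card = h * u := by
      apply Finset.exists_superset_card_eq
      · rw [← hmu']; exact hWc
      · simpa using hun
    refine h1 W' hW' U hUF (by omega) ?_
    intro c hc
    exact ⟨out_mono hWW' (hU c hc).1, (hU c hc).2.trans hWW'⟩
  have key : ∀ c ∈ F, Out W c → d c ⊆ W := by
    intro c hc hout
    by_contra hlt2
    have hcU : c ∉ U := fun h => hlt2 (hU c h).2
    refine hmax (m + 1) (by omega) (by omega) ?_
    rw [hP]
    refine ⟨W ∪ d c, insert c U, ?_, ?_, ?_, ?_⟩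
    · intro c' hc'
      rcases Finset.mem_insert.1 hc' with rfl | h
      · exact hc
      · exact hUF h
    · rw [Finset.card_insert_of_notMem hcU, hUc]
    · have h9 := Finset.card_union_le W (d c)
      have h10 := (hd c hc).2
      have h11 : h * (m + 1) = h * m + h := by ring
      omega
    · intro c' hc'
      rcases Finset.mem_insert.1 hc' with rfl | h
      · exact ⟨out_mono Finset.subset_union_left hout, Finset.subset_union_right⟩
      · exact ⟨out_mono Finset.subset_union_left (hU c' h).1,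
          (hU c' h).2.trans Finset.subset_union_left⟩
  obtain ⟨f, hf, hft⟩ := (Finset.all_card_le_biUnion_card_iff_exists_injective
    (fun c : {c // c ∈ F ∧ Out W c} => vars c.1 ∩ W)).1 (by
      intro s
      by_contra hcon
      push Not at hcon
      obtain ⟨Y, hY⟩ : ∃ Y, Y = s.biUnion (fun c : {c // c ∈ F ∧ Out W c} => vars c.1 ∩ W) := ⟨_, rfl⟩
      rw [← hY] at hcon
      have hYW : Y ⊆ W := by
        rw [hY]
        intro x hx
        obtain ⟨c, -, hc⟩ := Finset.mem_biUnion.1 hx
        exact (Finset.mem_inter.1 hc).2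
      obtain ⟨S', hS's, hS'c⟩ : ∃ S' ⊆ s, S'.card = Y.card + 1 :=
        Finset.exists_subset_card_eq hcon
      have hYc : Y.card ≤ h * u := by
        have h9 := Finset.card_le_card hYW
        have h10 : h * m ≤ h * u := Nat.mul_le_mul_left h hmu
        omega
      refine h2 Y hYc (S'.image Subtype.val) ?_ ?_ ?_
      · intro c hc
        obtain ⟨c', -, rfl⟩ := Finset.mem_image.1 hc
        exact c'.2.1
      · rw [Finset.card_image_of_injective _ Subtype.val_injective, hS'c]
      · intro c hc
        obtain ⟨c', hc', rfl⟩ := Finset.mem_image.1 hc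
        have hsub : vars c'.1 ∩ W ⊆ Y := by
          rw [hY]
          exact Finset.subset_biUnion_of_mem (fun c : {c // c ∈ F ∧ Out W c} => vars c.1 ∩ W) (hS's hc')
        unfold famh
        rw [Finset.mem_filter]
        refine ⟨hF c'.2.1, ?_, ?_⟩
        · intro l hl hlY
          apply c'.2.2 l hl
          intro hlW
          apply hlY
          apply hsub
          exact Finset.mem_inter.2 ⟨Finset.mem_image_of_mem _ hl, hlW⟩
        · rw [← (hd c'.1 c'.2.1).2]
          apply Finset.card_le_card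
          intro x hx
          have hx1 := (hd c'.1 c'.2.1).1 hx
          exact Finset.mem_inter.2 ⟨hx1, hsub (Finset.mem_inter.2 ⟨hx1, key c'.1 c'.2.1 c'.2.2 hx⟩)⟩)
  refine ⟨fun x => if ∃ c : {c // c ∈ F ∧ Out W c}, f c = x ∧ (x, false) ∈ c.1 then false else true, ?_⟩
  intro c hc
  by_cases hout : Out W c
  · have h3 := hft ⟨c, hc, hout⟩
    simp only [Finset.mem_inter] at h3
    obtain ⟨l, hl, hlx⟩ := Finset.mem_image.1 h3.1
    refine ⟨l, hl, ?_⟩
    obtain ⟨x, b⟩ := l
    simp only at hlx
    cases b with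
    | false =>
      simp only
      rw [if_pos]
      exact ⟨⟨c, hc, hout⟩, hlx.symm, hl⟩
    | true =>
      simp only
      rw [if_neg]
      rintro ⟨c'', h4, h5⟩
      have h6 : c'' = ⟨c, hc, hout⟩ := hf (h4.trans hlx)
      rw [h6] at h5
      have := (board_spec (hF hc)).2 _ hl _ h5 rfl
      simp at this
  · unfold Out at hout
    push Not at hout
    obtain ⟨l, hl, hlW, hl2⟩ := hout
    refine ⟨l, hl, ?_⟩
    have hb : l.2 = true := by
      cases h : l.2 with
      | false => exact absurd h hl2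
      | true => rfl
    rw [hb]
    beta_reduce
    rw [if_neg]
    rintro ⟨c'', h4, -⟩
    have h7 := (Finset.mem_inter.1 (hft c'')).2
    rw [h4] at h7
    exact hlW h7

end Pool.Agent.T6.H63.WL
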