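import Pool.Agent.T6.H63.WL.Defs

/-! Project WL, first summand of NM (helper4). -/

set_option autoImplicit false

open Finset

namespace Pool.Agent.T6.H63.WL

namespace NMA

theorem pow_le_choose : ∀ h k : ℕ, 1 ≤ h → h ≤ k → ((k : ℝ) / h) ^ h ≤ (k.choose h : ℝ) := by
  intro h
  induction h with
  | zero => intro k h1; omega
  | succ h ih =>
    intro k _ hk
    rcases Nat.eq_zero_or_pos h with h0 | h0
    · subst h0
      simp
    · obtain ⟨k, rfl⟩ : ∃ j, k = j + 1 := ⟨k - 1, by omega⟩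
      have hkh : h ≤ k := by omega
      have h1 := ih k h0 hkh
      have h2 : ((k + 1 : ℕ) : ℝ) * (k.choose h : ℝ) = ((k + 1).choose (h + 1) : ℝ) * ((h + 1 : ℕ) : ℝ) := by
        exact_mod_cast Nat.add_one_mul_choose_eq k h
      have hh : (0 : ℝ) < h := by exact_mod_cast h0
      have hkr : (h : ℝ) ≤ k := by exact_mod_cast hkh
      have h3 : (((k + 1 : ℕ) : ℝ) / ((h + 1 : ℕ) : ℝ)) ≤ (k : ℝ) / h := by
        rw [div_le_div_iff₀ (by positivity) hh]
        push_cast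
        nlinarith
      have h4 : (((k + 1 : ℕ) : ℝ) / ((h + 1 : ℕ) : ℝ)) ^ h ≤ (k.choose h : ℝ) :=
        (pow_le_pow_left₀ (by positivity) h3 h).trans h1
      have h5 : ((k + 1).choose (h + 1) : ℝ) =
          ((k + 1 : ℕ) : ℝ) / ((h + 1 : ℕ) : ℝ) * (k.choose h : ℝ) := by
        have : ((h + 1 : ℕ) : ℝ) ≠ 0 := by positivity
        field_simp
        linarith
      rw [h5, pow_succ, mul_comm]
      exact mul_le_mul_of_nonneg_left h4 (by positivity)

theorem inv_fact (a : ℕ) (ha : 1 ≤ a) : (1 : ℝ) / (a.factorial : ℝ) ≤ (Real.exp 1 / a) ^ a := by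
  have h := Real.pow_div_factorial_le_exp (a : ℝ) (Nat.cast_nonneg a) a
  have ha' : (0 : ℝ) < a := by exact_mod_cast ha
  have hf : (0 : ℝ) < (a.factorial : ℝ) := by exact_mod_cast a.factorial_pos
  rw [div_pow, ← Real.exp_nat_mul, mul_one, le_div_iff₀ (by positivity)]
  calc 1 / (a.factorial : ℝ) * (a : ℝ) ^ a = (a : ℝ) ^ a / a.factorial := by ring
    _ ≤ Real.exp a := h

theorem choose_le (n a : ℕ) (ha : 1 ≤ a) : (n.choose a : ℝ) ≤ (Real.exp 1 * n / a) ^ a := by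
  have h1 : (n.choose a : ℝ) ≤ (n : ℝ) ^ a / (a.factorial : ℝ) := Nat.choose_le_pow_div a n
  have h2 := inv_fact a ha
  calc (n.choose a : ℝ) ≤ (n : ℝ) ^ a / (a.factorial : ℝ) := h1
    _ = (n : ℝ) ^ a * (1 / (a.factorial : ℝ)) := by ring
    _ ≤ (n : ℝ) ^ a * (Real.exp 1 / a) ^ a := mul_le_mul_of_nonneg_left h2 (by positivity)
    _ = (Real.exp 1 * n / a) ^ a := by rw [← mul_pow]; congr 1; ring

end NMA

open NMA in
theorem nmA (n k h t u : ℕ) (h2 : 2 ≤ h) (hht : h ≤ t) (hhk : h ≤ k) (htk : t * k ≤ n)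
    (hu : u = n / (t * k)) :
    (n.choose (h * u) : ℝ) * ((((h * u).choose h : ℝ) * (2 * k / n) ^ h * Real.exp 1 * n /
      (15 ^ (h + 2) * t * k * (k.choose h : ℝ))) ^ u / (u.factorial : ℝ)) ≤ 1 / 15 := by
  have hk1 : 1 ≤ k := by omega
  have ht1 : 1 ≤ t := by omega
  have htk1 : 1 ≤ t * k := Nat.one_le_iff_ne_zero.2 (by positivity)
  have hu1 : 1 ≤ u := by
    rw [hu]; exact (Nat.one_le_div_iff (by omega)).2 htk
  have hn1 : 1 ≤ n := le_trans htk1 htk
  have hnu : n ≤ 2 * (u * (t * k)) := by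
    have h3 := Nat.lt_div_mul_add (a := n) (b := t * k) (by omega)
    rw [← hu] at h3
    nlinarith
  have hkr : (0 : ℝ) < k := by exact_mod_cast hk1
  have htr : (0 : ℝ) < t := by exact_mod_cast ht1
  have hur : (0 : ℝ) < u := by exact_mod_cast hu1
  have hnr : (0 : ℝ) < n := by exact_mod_cast hn1
  have hhr : (0 : ℝ) < h := by exact_mod_cast (by omega : 0 < h)
  have hnur : (n : ℝ) ≤ 2 * (u * (t * k)) := by exact_mod_cast hnu
  have he := Real.exp_pos 1
  have hcp : (0 : ℝ) < (k.choose h : ℝ) := by exact_mod_cast Nat.choose_pos hhk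
  -- bounds
  have b1 : (n.choose (h * u) : ℝ) ≤ ((Real.exp 1 * n / (h * u)) ^ h) ^ u := by
    have := choose_le n (h * u) (Nat.one_le_iff_ne_zero.2 (by positivity))
    rw [← pow_mul]
    push_cast at this
    exact this
  have b2 : ((h * u).choose h : ℝ) ≤ (Real.exp 1 * (h * u) / h) ^ h := by
    have := choose_le (h * u) h (by omega)
    push_cast at this
    exact this
  have b3 : ((k : ℝ) / h) ^ h ≤ (k.choose h : ℝ) := pow_le_choose h k (by omega) hhk
  have b4 : (1 : ℝ) / (u.factorial : ℝ) ≤ (Real.exp 1 / u) ^ u := inv_fact u hu1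
  set X : ℝ := ((h * u).choose h : ℝ) * (2 * k / n) ^ h * Real.exp 1 * n /
      (15 ^ (h + 2) * t * k * (k.choose h : ℝ)) with hX
  have bX : X ≤ (Real.exp 1 * (h * u) / h) ^ h * (2 * k / n) ^ h * Real.exp 1 * n /
      (15 ^ (h + 2) * t * k * ((k : ℝ) / h) ^ h) := by
    rw [hX]
    apply div_le_div₀ (by positivity) _ (by positivity)
    · exact mul_le_mul_of_nonneg_left b3 (by positivity)
    · gcongr
  have hX0 : 0 ≤ X := by rw [hX]; positivity
  have e1 : (Real.exp 1 * n / (h * u)) ^ h * ((Real.exp 1 * (h * u) / h) ^ h * (2 * k / n) ^ h *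
      Real.exp 1 * n / (15 ^ (h + 2) * t * k * ((k : ℝ) / h) ^ h)) * (Real.exp 1 / u) =
      (2 * Real.exp 1 ^ 2) ^ h * Real.exp 1 ^ 2 / 15 ^ (h + 2) * (n / (u * (t * k))) := by
    have e2 : (Real.exp 1 * n / (h * u)) ^ h * ((Real.exp 1 * (h * u) / h) ^ h * (2 * k / n) ^ h)
        = (2 * Real.exp 1 ^ 2) ^ h * ((k : ℝ) / h) ^ h := by
      rw [← mul_pow, ← mul_pow, ← mul_pow]
      congr 1
      field_simp
    have hq : ((k : ℝ) / h) ^ h ≠ 0 := by positivity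
    calc (Real.exp 1 * n / (h * u)) ^ h * ((Real.exp 1 * (h * u) / h) ^ h * (2 * k / n) ^ h *
          Real.exp 1 * n / (15 ^ (h + 2) * t * k * ((k : ℝ) / h) ^ h)) * (Real.exp 1 / u)
        = ((Real.exp 1 * n / (h * u)) ^ h * ((Real.exp 1 * (h * u) / h) ^ h * (2 * k / n) ^ h)) *
          Real.exp 1 * n / (15 ^ (h + 2) * t * k * ((k : ℝ) / h) ^ h) * (Real.exp 1 / u) := by ring
      _ = _ := by
          rw [e2]
          field_simp
  have e3 : (2 * Real.exp 1 ^ 2) ^ h * Real.exp 1 ^ 2 / 15 ^ (h + 2) * (n / (u * (t * k))) ≤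
      (1 / 15 : ℝ) := by
    have h4 : (n : ℝ) / (u * (t * k)) ≤ 2 := by
      rw [div_le_iff₀ (by positivity)]; exact hnur
    have h5 : 2 * Real.exp 1 ^ 2 ≤ 15 := by
      have := Real.exp_one_lt_d9
      nlinarith
    have h6 : (2 * Real.exp 1 ^ 2) ^ (h + 1) ≤ (15 : ℝ) ^ (h + 1) :=
      pow_le_pow_left₀ (by positivity) h5 _
    calc (2 * Real.exp 1 ^ 2) ^ h * Real.exp 1 ^ 2 / 15 ^ (h + 2) * (n / (u * (t * k)))
        ≤ (2 * Real.exp 1 ^ 2) ^ h * Real.exp 1 ^ 2 / 15 ^ (h + 2) * 2 :=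
          mul_le_mul_of_nonneg_left h4 (by positivity)
      _ = (2 * Real.exp 1 ^ 2) ^ (h + 1) / 15 ^ (h + 2) := by ring
      _ ≤ (15 : ℝ) ^ (h + 1) / 15 ^ (h + 2) := div_le_div_of_nonneg_right h6 (by positivity)
      _ = 1 / 15 := by
          rw [pow_succ (15 : ℝ) (h + 1)]
          field_simp
  calc (n.choose (h * u) : ℝ) * (X ^ u / (u.factorial : ℝ))
      = (n.choose (h * u) : ℝ) * X ^ u * (1 / (u.factorial : ℝ)) := by ring
    _ ≤ ((Real.exp 1 * n / (h * u)) ^ h) ^ u * ((Real.exp 1 * (h * u) / h) ^ h * (2 * k / n) ^ h *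
        Real.exp 1 * n / (15 ^ (h + 2) * t * k * ((k : ℝ) / h) ^ h)) ^ u * (Real.exp 1 / u) ^ u := by
        gcongr
    _ = ((Real.exp 1 * n / (h * u)) ^ h * ((Real.exp 1 * (h * u) / h) ^ h * (2 * k / n) ^ h *
        Real.exp 1 * n / (15 ^ (h + 2) * t * k * ((k : ℝ) / h) ^ h)) * (Real.exp 1 / u)) ^ u := by
        rw [mul_pow, mul_pow]
    _ ≤ (1 / 15) ^ u := by
        apply pow_le_pow_left₀ (by positivity)
        rw [e1]; exact e3
    _ ≤ (1 / 15) ^ 1 := pow_le_pow_of_le_one (by norm_num) (by norm_num) hu1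
    _ = 1 / 15 := by norm_num

end Pool.Agent.T6.H63.WL
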