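import Pool.Agent.T6.H63.WL.Defs

set_option autoImplicit false

open Finset

namespace Pool.Agent.T6.H63.WL

lemma nm_self_le (m : ℕ) : (m : ℝ) ^ m ≤ m.factorial * Real.exp 1 ^ m := by
  have h := Real.pow_div_factorial_le_exp (m : ℝ) (by positivity) m
  rw [div_le_iff₀ (by positivity)] at h
  have h2 : Real.exp 1 ^ m = Real.exp m := by rw [← Real.exp_nat_mul, mul_one]
  rw [h2]; linarith

lemma nm_xle (n k h t y : ℕ) (hh : 2 ≤ h) (ht : h ≤ t) (hk : h ≤ k) (hkt : k ≤ t ^ (h - 1)) (hn : t * k ≤ n)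
    (hy : y * (t * k) ≤ h * n) :
    (y.choose h : ℝ) * (2 * k / n) ^ h * Real.exp 1 * n / (15 ^ (h + 2) * t * k) ≤ (y : ℝ) ^ 2 / n * (1 / 400) := by
  obtain ⟨g, rfl⟩ : ∃ g, h = g + 2 := ⟨h - 2, by omega⟩
  have hc : (y.choose (g + 2) : ℝ) ≤ (y : ℝ) ^ (g + 2) / ((g + 2).factorial : ℝ) := Nat.choose_le_pow_div _ _
  have hf := nm_self_le (g + 2)
  have t0 : (0 : ℝ) < t := by exact_mod_cast (show 0 < t by omega)
  have k0 : (0 : ℝ) < k := by exact_mod_cast (show 0 < k by omega)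
  have n0' : 0 < n := lt_of_lt_of_le (Nat.mul_pos (show 0 < t by omega) (show 0 < k by omega)) hn
  have n0 : (0 : ℝ) < n := by exact_mod_cast n0'
  have F0 : (0 : ℝ) < ((g + 2).factorial : ℝ) := by positivity
  have hE0 : (0 : ℝ) < Real.exp 1 := Real.exp_pos 1
  have hE : Real.exp 1 ≤ 3 := by linarith [Real.exp_one_lt_d9]
  set F : ℝ := ((g + 2).factorial : ℝ)
  set E : ℝ := Real.exp 1
  have hr : 2 * (k : ℝ) * y / n ≤ 2 * ((g + 2 : ℕ) : ℝ) / t := by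
    rw [div_le_div_iff₀ n0 t0]
    have : ((y * (t * k) : ℕ) : ℝ) ≤ (((g + 2) * n : ℕ) : ℝ) := by exact_mod_cast hy
    push_cast at this ⊢
    nlinarith
  have hkt' : (k : ℝ) ≤ (t : ℝ) ^ (g + 1) := by
    have : g + 2 - 1 = g + 1 := by omega
    rw [this] at hkt
    exact_mod_cast hkt
  have s1 : (y.choose (g + 2) : ℝ) * (2 * k / n) ^ (g + 2) ≤
      (1 / F) * ((2 * ((g + 2 : ℕ) : ℝ) / t) ^ g * (2 * k * y / n) ^ 2) := by
    calc (y.choose (g + 2) : ℝ) * (2 * k / n) ^ (g + 2) ≤ ((y : ℝ) ^ (g + 2) / F) * (2 * k / n) ^ (g + 2) := by gcongr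
      _ = (1 / F) * ((2 * k * y / n) ^ g * (2 * k * y / n) ^ 2) := by
          rw [← pow_add]
          have : (2 * (k : ℝ) * y / n) = y * (2 * k / n) := by ring
          rw [this, mul_pow]; ring
      _ ≤ _ := by gcongr
  have s2 : (y.choose (g + 2) : ℝ) * (2 * k / n) ^ (g + 2) * E * n / (15 ^ (g + 2 + 2) * t * k) ≤
      (1 / F) * ((2 * ((g + 2 : ℕ) : ℝ) / t) ^ g * (2 * k * y / n) ^ 2) * E * n / (15 ^ (g + 2 + 2) * t * k) := by
    gcongr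
  refine s2.trans ?_
  have s3 : (1 / F) * ((2 * ((g + 2 : ℕ) : ℝ) / t) ^ g * (2 * k * y / n) ^ 2) * E * n / (15 ^ (g + 2 + 2) * t * k) =
      (((g + 2 : ℕ) : ℝ) ^ g / F) * (k / (t : ℝ) ^ (g + 1)) * (2 ^ (g + 2) * E / 15 ^ (g + 2 + 2)) * ((y : ℝ) ^ 2 / n) := by
    rw [div_pow, mul_pow]
    field_simp
    ring
  rw [s3]
  have s4 : (((g + 2 : ℕ) : ℝ) ^ g / F) ≤ E ^ (g + 2) := by
    rw [div_le_iff₀ F0]
    refine le_trans ?_ (hf.trans (le_of_eq (mul_comm _ _)))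
    exact pow_le_pow_right₀ (by push_cast; linarith [(Nat.cast_nonneg g : (0:ℝ) ≤ g)]) (by omega)
  have s5 : (k / (t : ℝ) ^ (g + 1)) ≤ 1 := by
    rw [div_le_one (by positivity)]; exact hkt'
  have s6 : E ^ (g + 2) * (2 ^ (g + 2) * E / 15 ^ (g + 2 + 2)) ≤ 1 / 400 := by
    have e1 : E ^ (g + 2) * (2 ^ (g + 2) * E / 15 ^ (g + 2 + 2)) = (2 * E / 15) ^ g * ((2 * E / 15) ^ 2 * (E / 225)) := by
      rw [← mul_assoc, ← pow_add, div_pow, mul_pow, pow_add (15 : ℝ) (g + 2) 2]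
      field_simp
      ring
    rw [e1]
    have e2 : (2 * E / 15) ^ g ≤ 1 := pow_le_one₀ (by positivity) (by linarith)
    have e3 : (2 * E / 15) ^ 2 ≤ (2 / 5) ^ 2 := by
      apply pow_le_pow_left₀ (by positivity); linarith
    calc (2 * E / 15) ^ g * ((2 * E / 15) ^ 2 * (E / 225)) ≤ 1 * ((2 / 5) ^ 2 * (3 / 225)) := by gcongr
      _ ≤ 1 / 400 := by norm_num
  calc (((g + 2 : ℕ) : ℝ) ^ g / F) * (k / (t : ℝ) ^ (g + 1)) * (2 ^ (g + 2) * E / 15 ^ (g + 2 + 2)) * ((y : ℝ) ^ 2 / n)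
      ≤ E ^ (g + 2) * 1 * (2 ^ (g + 2) * E / 15 ^ (g + 2 + 2)) * ((y : ℝ) ^ 2 / n) := by gcongr
    _ = (E ^ (g + 2) * (2 ^ (g + 2) * E / 15 ^ (g + 2 + 2))) * ((y : ℝ) ^ 2 / n) := by ring
    _ ≤ (1 / 400) * ((y : ℝ) ^ 2 / n) := by gcongr
    _ = _ := by ring

lemma nm_term (n y : ℕ) (n0' : 0 < n) (X : ℝ) (X0 : 0 ≤ X) (hX : X ≤ (y : ℝ) ^ 2 / n * (1 / 400)) :
    (n.choose y : ℝ) * (X ^ (y + 1) / ((y + 1).factorial : ℝ)) ≤ (1 / 4) * (1 / 2) ^ y := by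
  have n0 : (0 : ℝ) < n := by exact_mod_cast n0'
  have n1 : (1 : ℝ) ≤ n := by exact_mod_cast n0'
  have hc : (n.choose y : ℝ) ≤ (n : ℝ) ^ y / (y.factorial : ℝ) := Nat.choose_le_pow_div _ _
  have hf := nm_self_le y
  have hE0 : (0 : ℝ) < Real.exp 1 := Real.exp_pos 1
  have hE : Real.exp 1 ≤ 3 := by linarith [Real.exp_one_lt_d9]
  have F0 : (0 : ℝ) < (y.factorial : ℝ) := by positivity
  have hF1 : ((y + 1).factorial : ℝ) = (y + 1) * (y.factorial : ℝ) := by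
    rw [Nat.factorial_succ]; push_cast; ring
  rw [hF1]
  set F : ℝ := (y.factorial : ℝ)
  set E : ℝ := Real.exp 1
  have a1 : (n.choose y : ℝ) * (X ^ (y + 1) / ((y + 1) * F)) ≤
      ((n : ℝ) ^ y / F) * (((y : ℝ) ^ 2 / n * (1 / 400)) ^ (y + 1) / ((y + 1) * F)) := by
    gcongr
  refine a1.trans ?_
  have a2 : ((n : ℝ) ^ y / F) * (((y : ℝ) ^ 2 / n * (1 / 400)) ^ (y + 1) / ((y + 1) * F)) =
      (1 / n) * ((y : ℝ) ^ y / F) * ((y : ℝ) ^ y / F) * (y / (y + 1)) * y * (1 / 400) ^ (y + 1) := by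
    rw [mul_pow, div_pow, ← pow_mul, pow_succ (n : ℝ) y]
    have : (y : ℝ) ^ (2 * (y + 1)) = (y : ℝ) ^ y * (y : ℝ) ^ y * (y * y) := by ring
    rw [this]
    field_simp
  rw [a2]
  have a3 : ((y : ℝ) ^ y / F) ≤ 3 ^ y := by
    rw [div_le_iff₀ F0]
    refine hf.trans ?_
    rw [mul_comm]
    gcongr
  have a4 : ((y : ℝ) / (y + 1)) ≤ 1 := by
    rw [div_le_one (by positivity)]; linarith
  have a5 : (1 : ℝ) / n ≤ 1 := by rw [div_le_one n0]; exact n1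
  have a6 : (y : ℝ) ≤ 2 ^ y := by exact_mod_cast (Nat.lt_two_pow_self (n := y)).le
  calc (1 / (n : ℝ)) * ((y : ℝ) ^ y / F) * ((y : ℝ) ^ y / F) * (y / (y + 1)) * y * (1 / 400) ^ (y + 1)
      ≤ 1 * 3 ^ y * 3 ^ y * 1 * 2 ^ y * (1 / 400) ^ (y + 1) := by gcongr
    _ = (1 / 400) * (18 / 400) ^ y := by
        rw [pow_succ]
        have : (18 / 400 : ℝ) = 3 * 3 * 2 * (1 / 400) := by norm_num
        rw [this, mul_pow, mul_pow, mul_pow]; ring
    _ ≤ (1 / 4) * (1 / 2) ^ y :=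
        mul_le_mul (by norm_num) (pow_le_pow_left₀ (by norm_num) (by norm_num) _) (by positivity) (by norm_num)

/-- The second sum of `StmNm` is at most `1/2`. -/
theorem nmB (n k h t u : ℕ) (hh : 2 ≤ h) (ht : h ≤ t) (hk : h ≤ k) (hkt : k ≤ t ^ (h - 1)) (hn : t * k ≤ n)
    (hu : u = n / (t * k)) :
    ∑ y ∈ Finset.range (h * u + 1), (n.choose y : ℝ) *
      (((y.choose h : ℝ) * (2 * k / n) ^ h * Real.exp 1 * n / (15 ^ (h + 2) * t * k)) ^ (y + 1) /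
        ((y + 1).factorial : ℝ)) ≤ 1 / 2 := by
  have n0' : 0 < n := lt_of_lt_of_le (Nat.mul_pos (show 0 < t by omega) (show 0 < k by omega)) hn
  have hterm : ∀ y ∈ Finset.range (h * u + 1), (n.choose y : ℝ) *
      (((y.choose h : ℝ) * (2 * k / n) ^ h * Real.exp 1 * n / (15 ^ (h + 2) * t * k)) ^ (y + 1) /
        ((y + 1).factorial : ℝ)) ≤ (1 / 4) * (1 / 2) ^ y := by
    intro y hy
    have hy' : y ≤ h * u := by have := Finset.mem_range.mp hy; omega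
    apply nm_term n y n0'
    · positivity
    · apply nm_xle n k h t y hh ht hk hkt hn
      calc y * (t * k) ≤ (h * u) * (t * k) := Nat.mul_le_mul_right _ hy'
        _ = h * (u * (t * k)) := by ring
        _ ≤ h * n := by
            apply Nat.mul_le_mul_left; rw [hu]; exact Nat.div_mul_le_self _ _
  refine (Finset.sum_le_sum hterm).trans ?_
  rw [← Finset.mul_sum]
  have := sum_geometric_two_le (h * u + 1)
  linarith

end Pool.Agent.T6.H63.WL
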